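import Mathlib
import Pool.Agent.H590R2.RS.All2

/-!
# Random signings: a local-to-global principle with balls of radius `A (log log n)^2`
-/

namespace Pool.Agent.Results.MP_817a43_co.LocalToGlobal

open Pool.Agent.H590R2.RS

/-- the signed adjacency matrix of `G` in which the edge `e` gets the sign `+1` if `σ e = true` and
the sign `-1` if `σ e = false` -/
noncomputable def signed {n : ℕ} (G : SimpleGraph (Fin n)) (σ : G.edgeSet → Bool) :
    Matrix (Fin n) (Fin n) ℝ :=
  open Classical in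
  Matrix.of fun u v => if h : G.Adj u v then (if σ ⟨s(u, v), h⟩ then 1 else -1) else 0

/-- the proportion of the signings of `G` all of whose eigenvalues have absolute value
less than `t` -/
noncomputable def prob {n : ℕ} (G : SimpleGraph (Fin n)) (t : ℝ) : ℝ :=
  ({σ : G.edgeSet → Bool | ∀ μ ∈ spectrum ℝ (signed G σ), |μ| < t}.ncard : ℝ) /
    (Nat.card (G.edgeSet → Bool) : ℝ)

/-- for every vertex `x`, the adjacency matrix of the subgraph induced on the ball of radius `R`
around `x` has largest eigenvalue at most `lam`: its quadratic form, evaluated at functions `f`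
that vanish outside the ball, is at most `lam` times the sum of the squares -/
def LocalTop {n : ℕ} (G : SimpleGraph (Fin n)) (R lam : ℝ) : Prop :=
  open Classical in
  ∀ x : Fin n, ∀ f : Fin n → ℝ, (∀ y, f y ≠ 0 → ∃ p : G.Walk x y, (p.length : ℝ) ≤ R) →
    ∑ u, ∑ v, (if G.Adj u v then f u * f v else 0) ≤ lam * ∑ u, f u ^ 2

theorem signed_eq {n : ℕ} (G : SimpleGraph (Fin n)) (σ : G.edgeSet → Bool) :
    signed G σ = SM G σ := by
  ext u v
  simp only [signed, SM, sgn, Matrix.of_apply, SimpleGraph.mem_edgeSet]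
  by_cases h : G.Adj u v
  · simp [h]
  · simp [h]

theorem prob_eq {n : ℕ} (G : SimpleGraph (Fin n)) (t : ℝ) :
    prob G t = (open Classical in ((Finset.univ.filter fun σ : G.edgeSet → Bool =>
      ∀ μ ∈ spectrum ℝ (SM G σ), |μ| < t).card : ℝ) /
    (Fintype.card (G.edgeSet → Bool) : ℝ)) := by
  classical
  unfold prob
  rw [Nat.card_eq_fintype_card]
  congr 2
  rw [← Set.ncard_coe_finset]
  congr 1
  ext σ
  simp only [Set.mem_ofPred_eq, Finset.coe_filter, Finset.mem_univ, true_and]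
  rw [signed_eq]

theorem walk_of_isW {V : Type} (G : SimpleGraph V) : ∀ (l : List V) (x y : V), isW G x l y →
    ∃ p : G.Walk x y, p.length = l.length
  | [], x, y, h => by
      have h' : x = y := h
      subst h'
      exact ⟨SimpleGraph.Walk.nil, rfl⟩
  | a :: l, x, y, h => by
      obtain ⟨h1, h2⟩ := h
      obtain ⟨p, hp⟩ := walk_of_isW G l a y h2
      exact ⟨SimpleGraph.Walk.cons h1 p, by simp [hp]⟩

theorem result : ∀ (d : ℕ) (η : ℝ), 0 < η → ∃ A : ℝ, 0 < A ∧ ∀ ε : ℝ, 0 < ε →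
    ∃ n0 : ℕ, ∀ n : ℕ, n0 ≤ n → ∀ G : SimpleGraph (Fin n), (∀ u, (G.neighborSet u).ncard ≤ d) →
    ∀ lam : ℝ, 1 ≤ lam → LocalTop G (A * Real.log (Real.log n) ^ 2) lam →
    1 - ε ≤ prob G ((1 + η) * lam) := by
  intro d η hη
  obtain ⟨A, hA, h⟩ := tLG2 d η hη
  refine ⟨A + 1, by linarith, fun ε hε => ?_⟩
  obtain ⟨n0, hn0⟩ := h ε hε
  have hT : Filter.Tendsto (fun n : ℕ => Real.log (Real.log (n : ℝ))) Filter.atTop Filter.atTop :=
    Real.tendsto_log_atTop.comp (Real.tendsto_log_atTop.comp tendsto_natCast_atTop_atTop)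
  obtain ⟨n1, hn1⟩ := Filter.eventually_atTop.mp (hT.eventually_ge_atTop 1)
  refine ⟨max n0 n1, fun n hn G hdeg lam hlam hloc => ?_⟩
  have hlog : 1 ≤ Real.log (Real.log (n : ℝ)) := hn1 n (le_trans (le_max_right _ _) hn)
  rw [prob_eq]
  set R : ℕ := ⌈A * Real.log (Real.log n) ^ 2⌉₊ with hR
  have hRle : (R : ℝ) ≤ (A + 1) * Real.log (Real.log n) ^ 2 := by
    have h1 : (R : ℝ) < A * Real.log (Real.log n) ^ 2 + 1 := by
      rw [hR]; exact Nat.ceil_lt_add_one (by positivity)
    have h2 : 1 ≤ Real.log (Real.log (n : ℝ)) ^ 2 := by nlinarith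
    nlinarith
  refine hn0 (Fin n) G lam R (by simpa using le_trans (le_max_left _ _) hn) ?_ hlam ?_ ?_
  · intro u
    exact hdeg u
  · simpa using Nat.le_ceil (A * Real.log (Real.log (n : ℝ)) ^ 2)
  · intro x f hf
    have := hloc x f (fun y hy => by
      obtain ⟨l, hl1, hl2⟩ := hf y hy
      obtain ⟨p, hp⟩ := walk_of_isW G l x y hl2
      refine ⟨p, le_trans ?_ hRle⟩
      rw [hp]
      exact_mod_cast hl1)
    exact this

end Pool.Agent.Results.MP_817a43_co.LocalToGlobal
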